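import Mathlib

/-!
# The intrinsic interleaving metric on merge trees with at most `n` leaves

A merge tree with leaves `0, …, n - 1` is recorded by the heights `M i i` of its leaves and the
heights `M i j` at which the upward paths of two leaves merge. The merge tree itself is the quotient
`T.Space` of `n` half-lines `{(i, t) : M i i ≤ t}`, where `(i, t)` and `(j, t)` are identified when
`M i j ≤ t`, with the quotient topology and with the height function `[i, t] ↦ t`. Every merge tree
with `n` leaves is isomorphic to one of these.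
-/

open Set
open scoped ENNReal NNReal

namespace Pool.Agent.Results.MP_4761b7_gt.FewLeaves

/-- a merge tree with `n` leaves: `M i i` is the height of the leaf `i`, and `M i j` the height at
which the upward paths starting at the leaves `i ≠ j` merge -/
structure MergeTree where
  /-- the number of leaves -/
  n : ℕ
  /-- there is a leaf -/
  pos : 0 < n
  /-- the heights -/
  M : Fin n → Fin n → ℝ
  /-- symmetry -/
  symm : ∀ i j, M i j = M j i
  /-- paths that have merged stay together -/
  ultra : ∀ i j k, M i k ≤ max (M i j) (M j k)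
  /-- the merging height of two leaves is above the leaves -/
  gap : ∀ i j, i ≠ j → M i i < M i j

namespace MergeTree

/-- the disjoint union of the half-lines above the leaves -/
def Pre (T : MergeTree) : Type := {p : Fin T.n × ℝ // T.M p.1 p.1 ≤ p.2}

instance (T : MergeTree) : TopologicalSpace T.Pre :=
  inferInstanceAs (TopologicalSpace {p : Fin T.n × ℝ // T.M p.1 p.1 ≤ p.2})

/-- the identification of the half-lines -/
def setoid (T : MergeTree) : Setoid T.Pre where
  r p q := p.1.2 = q.1.2 ∧ T.M p.1.1 q.1.1 ≤ p.1.2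
  iseqv :=
    { refl := fun p => ⟨rfl, p.2⟩
      symm := fun {p q} h => ⟨h.1.symm, by rw [T.symm, ← h.1]; exact h.2⟩
      trans := fun {p q r} h h' => ⟨h.1.trans h'.1, (T.ultra _ q.1.1 _).trans
        (max_le h.2 (by rw [h.1]; exact h'.2))⟩ }

/-- the merge tree as a topological space -/
def Space (T : MergeTree) : Type := Quotient T.setoid

instance (T : MergeTree) : TopologicalSpace T.Space :=
  inferInstanceAs (TopologicalSpace (Quotient T.setoid))

/-- the point at height `t` above the leaf `i` -/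
def pt (T : MergeTree) (i : Fin T.n) (t : ℝ) (h : T.M i i ≤ t) : T.Space :=
  Quotient.mk T.setoid ⟨(i, t), h⟩

/-- the height function -/
def height (T : MergeTree) : T.Space → ℝ :=
  Quotient.lift (fun p : T.Pre => p.1.2) (fun _ _ h => h.1)

/-- `T.up s x` is the point `i^s(x)` at height `height x + s` on the upward path from `x` -/
def up (T : MergeTree) (s : ℝ≥0) : T.Space → T.Space :=
  Quotient.lift (fun p : T.Pre => T.pt p.1.1 (p.1.2 + s) (p.2.trans (by simp)))
    (fun p q h => Quotient.sound ⟨by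
      change p.1.2 + (s : ℝ) = q.1.2 + (s : ℝ)
      rw [h.1], h.2.trans (by simp)⟩)

/-- `T` and `T'` are `ε`-interleaved -/
def Interleaved (ε : ℝ≥0) (T T' : MergeTree) : Prop :=
  ∃ (α : T.Space → T'.Space) (β : T'.Space → T.Space), Continuous α ∧ Continuous β ∧
    (∀ x, T'.height (α x) = T.height x + ε) ∧ (∀ y, T.height (β y) = T'.height y + ε) ∧
    (∀ x, β (α x) = T.up (2 * ε) x) ∧ ∀ y, α (β y) = T'.up (2 * ε) y

/-- the interleaving distance -/
noncomputable def dI (T T' : MergeTree) : ℝ≥0∞ := ⨅ (ε : ℝ≥0) (_ : Interleaved ε T T'), (ε : ℝ≥0∞)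

variable {T T' T'' : MergeTree}

theorem exists_pt (x : T.Space) : ∃ i t h, x = T.pt i t h := by
  obtain ⟨⟨⟨i, t⟩, h⟩, rfl⟩ := Quotient.exists_rep x
  exact ⟨i, t, h, rfl⟩

theorem height_pt (i : Fin T.n) (t : ℝ) (h : T.M i i ≤ t) : T.height (T.pt i t h) = t := rfl

theorem pt_eq {i j : Fin T.n} {s t : ℝ} {h : T.M i i ≤ s} {h' : T.M j j ≤ t} :
    T.pt i s h = T.pt j t h' ↔ s = t ∧ T.M i j ≤ s := by
  constructor
  · intro h1
    exact Quotient.exact h1
  · intro h1
    exact Quotient.sound h1

theorem up_pt (s : ℝ≥0) (i : Fin T.n) (t : ℝ) (h : T.M i i ≤ t) :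
    T.up s (T.pt i t h) = T.pt i (t + s) (h.trans (by simp)) := rfl

theorem up_up (s t : ℝ≥0) (x : T.Space) : T.up s (T.up t x) = T.up (t + s) x := by
  obtain ⟨i, u, h, rfl⟩ := exists_pt x
  rw [up_pt, up_pt, up_pt, pt_eq]
  refine ⟨by push_cast; ring, ?_⟩
  have := s.2
  have := t.2
  refine h.trans ?_
  have h1 : (0 : ℝ) ≤ s := s.2
  have h2 : (0 : ℝ) ≤ t := t.2
  linarith

/-- the height at which the upward path of a point merges with the one of the leaf `k` -/
def merge (T : MergeTree) (k : Fin T.n) : T.Space → ℝ :=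
  Quotient.lift (fun p : T.Pre => max (T.M p.1.1 k) p.1.2) (fun p q h => by
    have h1 := h.1
    have h2 := T.ultra p.1.1 q.1.1 k
    have h3 := T.ultra q.1.1 p.1.1 k
    have h4 := h.2
    have h5 : T.M q.1.1 p.1.1 ≤ p.1.2 := by rw [T.symm]; exact h4
    apply le_antisymm
    · refine max_le ?_ (by rw [h1]; exact le_max_right _ _)
      refine h2.trans (max_le (h4.trans (by rw [h1]; exact le_max_right _ _)) (le_max_left _ _))
    · refine max_le ?_ (by rw [← h1]; exact le_max_right _ _)
      exact h3.trans (max_le (h5.trans (le_max_right _ _)) (le_max_left _ _)))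

theorem merge_pt (k i : Fin T.n) (t : ℝ) (h : T.M i i ≤ t) :
    T.merge k (T.pt i t h) = max (T.M i k) t := rfl

theorem continuous_merge (k : Fin T.n) : Continuous (T.merge k) := by
  refine Continuous.quotient_lift ?_ _
  have h1 : Continuous fun p : T.Pre => p.1.1 := continuous_fst.comp continuous_subtype_val
  have h2 : Continuous fun p : T.Pre => p.1.2 := continuous_snd.comp continuous_subtype_val
  have h3 : Continuous fun i : Fin T.n => T.M i k := continuous_of_discreteTopology
  exact (h3.comp h1).max h2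

/-- a continuous path which goes up is determined by its starting point -/
theorem path_unique {γ : ℝ → T.Space} {a c : ℝ} (hγ : ContinuousOn γ (Ici a))
    (hh : ∀ t, a ≤ t → T.height (γ t) = t + c) {k : Fin T.n} (hk : T.M k k ≤ a + c)
    (h0 : γ a = T.pt k (a + c) hk) (t : ℝ) (ht : a ≤ t) :
    γ t = T.pt k (t + c) (hk.trans (by linarith)) := by
  obtain ⟨i, u, hi, hx⟩ := exists_pt (γ t)
  have hu : u = t + c := by
    have := hh t ht
    rw [hx, height_pt] at this
    exact this
  rw [hx, pt_eq]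
  refine ⟨hu, ?_⟩
  rw [hu]
  by_contra hcon
  push Not at hcon
  -- the merging height jumps over a value which it cannot take
  obtain ⟨v, ⟨hv1, hv2⟩, hv3⟩ : ∃ v ∈ Ioo (t + c) (T.M i k), v ∉ range fun j => T.M j k := by
    by_contra hno
    push Not at hno
    exact (Ioo_infinite hcon) ((finite_range fun j => T.M j k).subset hno)
  have hcont : ContinuousOn (fun s => T.merge k (γ s)) (Icc a t) :=
    (continuous_merge k).comp_continuousOn (hγ.mono Icc_subset_Ici_self)
  have h1 : T.merge k (γ a) = a + c := by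
    rw [h0, merge_pt, max_eq_right hk]
  have h2 : T.merge k (γ t) = T.M i k := by
    rw [hx, merge_pt, max_eq_left (by rw [hu]; exact hcon.le)]
  obtain ⟨s, hs, hsv⟩ : ∃ s ∈ Icc a t, T.merge k (γ s) = v := by
    have h3 := intermediate_value_Icc ht hcont
    have h4 : v ∈ Icc (T.merge k (γ a)) (T.merge k (γ t)) := by
      rw [h1, h2]
      exact ⟨by linarith, hv2.le⟩
    exact h3 h4
  obtain ⟨j, w, hj, hy⟩ := exists_pt (γ s)
  have hw : w = s + c := by
    have := hh s hs.1
    rw [hy, height_pt] at this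
    exact this
  rw [hy, merge_pt] at hsv
  rcases le_total (T.M j k) w with h5 | h5
  · rw [max_eq_right h5] at hsv
    linarith [hs.2]
  · rw [max_eq_left h5] at hsv
    exact hv3 ⟨j, hsv⟩

theorem continuousOn_ray (i : Fin T.n) (a : ℝ) (ha : T.M i i ≤ a) {γ : ℝ → T.Space}
    (hγ : ∀ t (h : a ≤ t), γ t = T.pt i t (ha.trans h)) : ContinuousOn γ (Ici a) := by
  rw [continuousOn_iff_continuous_domRestrict]
  have h1 : (Ici a).domRestrict γ = fun t => T.pt i t.1 (ha.trans t.2) := by
    ext t
    exact hγ t.1 t.2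
  rw [h1]
  have h2 : Continuous fun t : Ici a => (⟨(i, t.1), ha.trans t.2⟩ : T.Pre) :=
    Continuous.subtype_mk (by fun_prop) _
  exact continuous_quotient_mk'.comp h2

/-- a continuous map which shifts heights is compatible with upward paths -/
theorem map_ray {α : T.Space → T'.Space} (hα : Continuous α) {ε : ℝ≥0}
    (hh : ∀ x, T'.height (α x) = T.height x + ε) {i : Fin T.n} {a : ℝ} (ha : T.M i i ≤ a)
    {k : Fin T'.n} {b : ℝ} (hk : T'.M k k ≤ b) (h0 : α (T.pt i a ha) = T'.pt k b hk) {t : ℝ}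
    (ht : a ≤ t) :
    ∃ h, α (T.pt i t (ha.trans ht)) = T'.pt k (t + ε) h := by
  classical
  have hb : b = a + ε := by
    have := hh (T.pt i a ha)
    rw [h0, height_pt, height_pt] at this
    exact this
  subst hb
  obtain ⟨γ, hγ⟩ : ∃ γ : ℝ → T.Space, ∀ t (h : a ≤ t), γ t = T.pt i t (ha.trans h) :=
    ⟨fun t => if h : a ≤ t then T.pt i t (ha.trans h) else T.pt i a ha, fun t h => dif_pos h⟩
  have hc := continuousOn_ray i a ha hγ
  have h1 := path_unique (γ := fun t => α (γ t)) (a := a) (c := ε) (hα.comp_continuousOn hc)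
    (fun t ht => by rw [hγ t ht, hh, height_pt]) hk (by rw [hγ a le_rfl]; exact h0) t ht
  rw [hγ t ht] at h1
  exact ⟨_, h1⟩

theorem map_up {α : T.Space → T'.Space} (hα : Continuous α) {ε : ℝ≥0}
    (hh : ∀ x, T'.height (α x) = T.height x + ε) (s : ℝ≥0) (x : T.Space) :
    α (T.up s x) = T'.up s (α x) := by
  obtain ⟨i, a, ha, rfl⟩ := exists_pt x
  obtain ⟨k, b, hk, h0⟩ := exists_pt (α (T.pt i a ha))
  have hb : b = a + ε := by
    have := hh (T.pt i a ha)
    rw [h0, height_pt, height_pt] at this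
    exact this
  obtain ⟨h1, h2⟩ := map_ray hα hh ha hk h0 (t := a + s) (by simp)
  rw [up_pt, h2, h0, up_pt, pt_eq]
  refine ⟨by rw [hb]; ring, ?_⟩
  refine hk.trans ?_
  rw [hb]
  have : (0 : ℝ) ≤ s := s.2
  linarith

theorem Interleaved.symm {ε : ℝ≥0} (h : Interleaved ε T T') : Interleaved ε T' T := by
  obtain ⟨α, β, h1, h2, h3, h4, h5, h6⟩ := h
  exact ⟨β, α, h2, h1, h4, h3, h6, h5⟩

theorem Interleaved.trans {ε δ : ℝ≥0} (h : Interleaved ε T T') (h' : Interleaved δ T' T'') :
    Interleaved (ε + δ) T T'' := by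
  obtain ⟨α, β, h1, h2, h3, h4, h5, h6⟩ := h
  obtain ⟨α', β', h1', h2', h3', h4', h5', h6'⟩ := h'
  refine ⟨fun x => α' (α x), fun y => β (β' y), h1'.comp h1, h2.comp h2', ?_, ?_, ?_, ?_⟩
  · intro x
    simp only [h3', h3]; push_cast; ring
  · intro y
    simp only [h4, h4']; push_cast; ring
  · intro x
    simp only [h5', map_up h2 h4, h5, up_up, mul_add]
  · intro y
    simp only [h6, map_up h1' h3', h6', up_up, mul_add]
    rw [add_comm]

/-- the map of merge trees determined by a map between the leaves -/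
theorem exists_map {σ : Fin T.n → Fin T'.n} {ε : ℝ≥0}
    (hσ : ∀ i j, T'.M (σ i) (σ j) ≤ T.M i j + ε) :
    ∃ α : T.Space → T'.Space, Continuous α ∧
      ∀ i t (h : T.M i i ≤ t), ∃ h', α (T.pt i t h) = T'.pt (σ i) (t + ε) h' := by
  have hb : ∀ p : T.Pre, T'.M (σ p.1.1) (σ p.1.1) ≤ p.1.2 + ε := fun p =>
    (hσ _ _).trans (by linarith [p.2])
  refine ⟨Quotient.lift (fun p : T.Pre => T'.pt (σ p.1.1) (p.1.2 + ε) (hb p)) ?_, ?_, ?_⟩
  · intro p q h
    rw [pt_eq]
    refine ⟨by rw [h.1], (hσ _ _).trans ?_⟩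
    have := h.2
    linarith
  · refine Continuous.quotient_lift ?_ _
    have h1 : Continuous fun p : T.Pre => p.1.1 := continuous_fst.comp continuous_subtype_val
    have h2 : Continuous fun p : T.Pre => p.1.2 := continuous_snd.comp continuous_subtype_val
    have h3 : Continuous σ := continuous_of_discreteTopology
    have h4 : Continuous fun p : T.Pre => (⟨(σ p.1.1, p.1.2 + ε), hb p⟩ : T'.Pre) :=
      Continuous.subtype_mk ((h3.comp h1).prodMk (h2.add_const _)) _
    exact continuous_quotient_mk'.comp h4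
  · intro i t h
    exact ⟨_, rfl⟩

/-- a criterion for interleavings -/
theorem interleaved_of {σ : Fin T.n → Fin T'.n} {τ : Fin T'.n → Fin T.n} {ε : ℝ≥0}
    (hσ : ∀ i j, T'.M (σ i) (σ j) ≤ T.M i j + ε) (hτ : ∀ i j, T.M (τ i) (τ j) ≤ T'.M i j + ε)
    (h1 : ∀ i, T.M (τ (σ i)) i ≤ T.M i i + 2 * ε)
    (h2 : ∀ i, T'.M (σ (τ i)) i ≤ T'.M i i + 2 * ε) : Interleaved ε T T' := by
  obtain ⟨α, hα, hα'⟩ := exists_map hσ
  obtain ⟨β, hβ, hβ'⟩ := exists_map hτ
  refine ⟨α, β, hα, hβ, ?_, ?_, ?_, ?_⟩
  · intro x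
    obtain ⟨i, t, h, rfl⟩ := exists_pt x
    obtain ⟨h', h3⟩ := hα' i t h
    rw [h3, height_pt, height_pt]
  · intro x
    obtain ⟨i, t, h, rfl⟩ := exists_pt x
    obtain ⟨h', h3⟩ := hβ' i t h
    rw [h3, height_pt, height_pt]
  · intro x
    obtain ⟨i, t, h, rfl⟩ := exists_pt x
    obtain ⟨h', h3⟩ := hα' i t h
    obtain ⟨h'', h4⟩ := hβ' (σ i) (t + ε) h'
    rw [h3, h4, up_pt, pt_eq]
    refine ⟨by push_cast; ring, (h1 i).trans ?_⟩
    linarith
  · intro x
    obtain ⟨i, t, h, rfl⟩ := exists_pt x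
    obtain ⟨h', h3⟩ := hβ' i t h
    obtain ⟨h'', h4⟩ := hα' (τ i) (t + ε) h'
    rw [h3, h4, up_pt, pt_eq]
    refine ⟨by push_cast; ring, (h2 i).trans ?_⟩
    linarith

theorem Interleaved.refl (T : MergeTree) : Interleaved 0 T T :=
  interleaved_of (σ := id) (τ := id) (by simp) (by simp) (by simp) (by simp)

/-- The (isomorphism classes of) merge trees with the interleaving distance, as a pseudometric
space. -/
noncomputable instance : PseudoEMetricSpace MergeTree where
  edist := dI
  edist_self T := le_antisymm (iInf₂_le_of_le 0 (Interleaved.refl T) (by simp)) zero_le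
  edist_comm T T' := by
    unfold dI
    exact le_antisymm (le_iInf₂ fun ε h => iInf₂_le ε h.symm) (le_iInf₂ fun ε h => iInf₂_le ε h.symm)
  edist_triangle T T' T'' := by
    unfold dI
    rw [ENNReal.iInf_add]
    refine le_iInf fun ε => ?_
    rw [ENNReal.iInf_add]
    refine le_iInf fun h => ?_
    rw [ENNReal.add_iInf]
    refine le_iInf fun δ => ?_
    rw [ENNReal.add_iInf]
    refine le_iInf fun h' => ?_
    refine (iInf₂_le (ε + δ) (h.trans h')).trans ?_
    push_cast
    exact le_rfl

theorem edist_def (T T' : MergeTree) : edist T T' = dI T T' := rfl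

end MergeTree

open MergeTree

/-- The intrinsic distance of `T` and `T'` in the space of merge trees with at most `m` leaves: the
infimum of the lengths (with respect to the interleaving distance) of the paths `γ` from `T` to
`T'`, continuous with respect to the interleaving distance, for which every `γ t` has at most `m`
leaves. -/
noncomputable def intrinsic (m : ℕ) (T T' : MergeTree) : ℝ≥0∞ :=
  ⨅ (γ : ℝ → MergeTree) (_ : ContinuousOn γ (Icc 0 1) ∧ (∀ t ∈ Icc (0 : ℝ) 1, (γ t).n ≤ m) ∧
    γ 0 = T ∧ γ 1 = T'), eVariationOn γ (Icc 0 1)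

theorem le_intrinsic (m : ℕ) (T T' : MergeTree) : edist T T' ≤ intrinsic m T T' := by
  refine le_iInf₂ fun γ h => ?_
  obtain ⟨_, _, rfl, rfl⟩ := h
  exact eVariationOn.edist_le _ (by simp) (by simp)

/-- if all merging heights of `T` are at least `2` above the leaves, then close trees have at least
as many leaves, with similar merging heights -/
theorem exists_leaves {T S : MergeTree} (hT : ∀ i j, i ≠ j → T.M i i + 2 ≤ T.M i j) {δ : ℝ≥0}
    (hδ : δ < 1) (h : Interleaved δ T S) :
    ∃ k : Fin T.n → Fin S.n, Function.Injective k ∧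
      ∀ i j, |S.M (k i) (k j) - T.M i j| ≤ δ := by
  obtain ⟨α, β, hα, hβ, hhα, hhβ, hβα, -⟩ := h
  have hδ' : (δ : ℝ) < 1 := by exact_mod_cast hδ
  have hδ0 : (0 : ℝ) ≤ δ := δ.2
  have hk : ∀ i, ∃ (k : Fin S.n) (h : S.M k k ≤ T.M i i + δ),
      α (T.pt i (T.M i i) le_rfl) = S.pt k (T.M i i + δ) h := by
    intro i
    obtain ⟨k, b, hb, h0⟩ := exists_pt (α (T.pt i (T.M i i) le_rfl))
    have hb' : b = T.M i i + δ := by
      have := hhα (T.pt i (T.M i i) le_rfl)
      rw [h0, height_pt, height_pt] at this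
      exact this
    subst hb'
    exact ⟨k, hb, h0⟩
  choose k hk1 hk2 using hk
  -- the image of the lowest point of the half-line of `k i` lies on the edge of the leaf `i`
  have hback : ∀ i, ∃ h, β (S.pt (k i) (S.M (k i) (k i)) le_rfl) =
      T.pt i (S.M (k i) (k i) + δ) h := by
    intro i
    obtain ⟨l, b, hb, h0⟩ := exists_pt (β (S.pt (k i) (S.M (k i) (k i)) le_rfl))
    have hb' : b = S.M (k i) (k i) + δ := by
      have := hhβ (S.pt (k i) (S.M (k i) (k i)) le_rfl)
      rw [h0, height_pt, height_pt] at this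
      exact this
    subst hb'
    obtain ⟨h1, h2⟩ := map_ray hβ hhβ le_rfl hb h0 (hk1 i)
    rw [← hk2 i, hβα, up_pt, pt_eq] at h2
    have hil : i = l := by
      by_contra hne
      have h3 := hT i l hne
      have h4 := h2.2
      push_cast at h4
      linarith
    subst hil
    exact ⟨hb, h0⟩
  have hlow : ∀ i, T.M i i ≤ S.M (k i) (k i) + δ := fun i => (hback i).1
  have hup1 : ∀ i j, S.M (k i) (k j) ≤ T.M i j + δ := by
    intro i j
    have hii : T.M i i ≤ T.M i j := by
      by_cases hij : i = j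
      · rw [hij]
      · exact (T.gap i j hij).le
    have hjj : T.M j j ≤ T.M i j := by
      by_cases hij : i = j
      · rw [hij]
      · rw [T.symm i j]; exact (T.gap j i (Ne.symm hij)).le
    obtain ⟨h1, h2⟩ := map_ray hα hhα le_rfl (hk1 i) (hk2 i) hii
    obtain ⟨h3, h4⟩ := map_ray hα hhα le_rfl (hk1 j) (hk2 j) hjj
    have h5 : T.pt i (T.M i j) hii = T.pt j (T.M i j) hjj := pt_eq.2 ⟨rfl, le_rfl⟩
    rw [h5, h4, pt_eq] at h2
    rw [S.symm]
    exact h2.2
  have hup2 : ∀ i j, T.M i j ≤ S.M (k i) (k j) + δ := by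
    intro i j
    have hii : S.M (k i) (k i) ≤ S.M (k i) (k j) := by
      by_cases hij : k i = k j
      · rw [hij]
      · exact (S.gap _ _ hij).le
    have hjj : S.M (k j) (k j) ≤ S.M (k i) (k j) := by
      by_cases hij : k i = k j
      · rw [hij]
      · rw [S.symm (k i) (k j)]; exact (S.gap _ _ (Ne.symm hij)).le
    obtain ⟨h1, h1'⟩ := hback i
    obtain ⟨h2, h2'⟩ := hback j
    obtain ⟨h3, h3'⟩ := map_ray hβ hhβ le_rfl h1 h1' hii
    obtain ⟨h4, h4'⟩ := map_ray hβ hhβ le_rfl h2 h2' hjj
    have h5 : S.pt (k i) (S.M (k i) (k j)) hii = S.pt (k j) (S.M (k i) (k j)) hjj :=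
      pt_eq.2 ⟨rfl, le_rfl⟩
    rw [h5, h4', pt_eq] at h3'
    rw [T.symm]
    exact h3'.2
  refine ⟨k, ?_, fun i j => abs_le.2 ⟨by linarith [hup2 i j], by linarith [hup1 i j]⟩⟩
  intro i j hij
  by_contra hne
  have h1 := hup2 i j
  rw [← hij] at h1
  have h2 := hk1 i
  have h3 := hT i j hne
  linarith

/-! ### The examples -/

/-- merging heights: `A` at position one, `100 k` at position `k ≥ 2` -/
noncomputable def w (A : ℝ) (k : ℕ) : ℝ := if k ≤ 1 then A else 100 * k

theorem w_mono {A : ℝ} (hA : A ≤ 200) {k l : ℕ} (h : k ≤ l) : w A k ≤ w A l := by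
  unfold w
  split_ifs with h1 h2 h2
  · exact le_rfl
  · have : (2 : ℝ) ≤ l := by
      have : 2 ≤ l := by omega
      exact_mod_cast this
    linarith
  · omega
  · have : (k : ℝ) ≤ l := by exact_mod_cast h
    linarith

theorem le_w {A : ℝ} (hA : A ≤ 200) (k : ℕ) : A ≤ w A k := by
  have := w_mono hA (Nat.zero_le k)
  simpa [w] using this

/-- the height of the leaf `i` -/
noncomputable def leaf (A : ℝ) (i : ℕ) : ℝ := if i = 1 then A - 2 else 0

theorem leaf_le {A : ℝ} (h2 : 2 ≤ A) (i : ℕ) : leaf A i + 2 ≤ A := by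
  unfold leaf; split_ifs <;> linarith

/-- the merging heights of the example -/
noncomputable def hgt (A : ℝ) (i j : ℕ) : ℝ := if i = j then leaf A i else w A (max i j)

theorem hgt_self (A : ℝ) (i : ℕ) : hgt A i i = leaf A i := if_pos rfl

theorem hgt_of_ne (A : ℝ) {i j : ℕ} (h : i ≠ j) : hgt A i j = w A (max i j) := if_neg h

/-- The merge tree with `m + 2` leaves: a leaf `0` at height `0`, a leaf `1` at height `A - 2` which
merges with it at height `A`, and leaves `k = 2, …, m + 1` at height `0` which merge with the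
previous ones at height `100 k`. -/
noncomputable def example' (m : ℕ) (A : ℝ) (h2 : 2 ≤ A) (hA : A ≤ 200) : MergeTree where
  n := m + 2
  pos := by omega
  M i j := hgt A i j
  symm i j := by
    by_cases h : (i : ℕ) = j
    · rw [h]
    · rw [hgt_of_ne A h, hgt_of_ne A (Ne.symm h), max_comm]
  ultra i j k := by
    have hl : ∀ i l : ℕ, leaf A i ≤ w A l := fun i l => by
      linarith [leaf_le h2 i, le_w hA l]
    by_cases hik : (i : ℕ) = k
    · rw [← hik, hgt_self]
      by_cases hij : (i : ℕ) = j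
      · rw [← hij, hgt_self]; exact le_max_left _ _
      · rw [hgt_of_ne A hij]
        exact (hl _ _).trans (le_max_left _ _)
    · by_cases hij : (i : ℕ) = j
      · rw [← hij]
        exact le_max_right _ _
      · by_cases hjk : (j : ℕ) = k
        · rw [← hjk]
          exact le_max_left _ _
        · rw [hgt_of_ne A hik, hgt_of_ne A hij, hgt_of_ne A hjk]
          rcases le_total (max (i : ℕ) j) (max (j : ℕ) k) with h | h
          · exact le_trans (w_mono hA (by omega)) (le_max_right _ _)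
          · exact le_trans (w_mono hA (by omega)) (le_max_left _ _)
  gap i j hij := by
    have hij' : (i : ℕ) ≠ j := fun h => hij (Fin.ext h)
    rw [hgt_self, hgt_of_ne A hij']
    linarith [le_w hA (max (i : ℕ) j), leaf_le h2 (i : ℕ)]

theorem example_gap (m : ℕ) (A : ℝ) (h2 : 2 ≤ A) (hA : A ≤ 200) :
    ∀ i j, i ≠ j → (example' m A h2 hA).M i i + 2 ≤ (example' m A h2 hA).M i j := by
  intro i j hij
  have hij' : (i : ℕ) ≠ j := fun h => hij (Fin.ext h)
  change hgt A i i + 2 ≤ hgt A i j
  rw [hgt_self, hgt_of_ne A hij']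
  linarith [le_w hA (max (i : ℕ) j), leaf_le h2 (i : ℕ)]

/-- the map of leaves: `1` is sent to `0` -/
def fold (i : ℕ) : ℕ := if i = 1 then 0 else i

theorem hgt_fold {A B : ℝ} (h2 : 2 ≤ A) (hA : A ≤ 200) (i j : ℕ) :
    hgt B (fold i) (fold j) ≤ hgt A i j + 1 := by
  have h0 : 0 ≤ hgt A i j := by
    by_cases hij : i = j
    · rw [hij, hgt_self]
      unfold leaf; split_ifs <;> linarith
    · rw [hgt_of_ne A hij]
      linarith [le_w hA (max i j)]
  by_cases hs : fold i = fold j
  · rw [hs, hgt_self]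
    have h3 : fold j ≠ 1 := by
      unfold fold
      split_ifs with h
      · norm_num
      · exact h
    have h4 : leaf B (fold j) = 0 := if_neg h3
    rw [h4]
    linarith
  · have hij : i ≠ j := fun h => hs (by rw [h])
    rw [hgt_of_ne B hs, hgt_of_ne A hij]
    have h5 : max (fold i) (fold j) = max i j ∧ 2 ≤ max i j := by
      unfold fold at *
      split_ifs at * <;> omega
    rw [h5.1]
    unfold w
    rw [if_neg (by omega), if_neg (by omega)]
    linarith

theorem hgt_fold_self {A : ℝ} (i : ℕ) :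
    hgt A (fold (fold i)) i ≤ hgt A i i + 2 := by
  by_cases hi : i = 1
  · subst hi
    have h1 : fold (fold 1) = 0 := rfl
    rw [h1, hgt_self, hgt_of_ne A (by norm_num)]
    simp only [w, leaf]
    norm_num
  · have h1 : fold i = i := if_neg hi
    rw [h1, h1]
    linarith

theorem example_interleaved (m : ℕ) {A B : ℝ} (h2 : 2 ≤ A) (hA : A ≤ 200) (h2' : 2 ≤ B)
    (hB : B ≤ 200) : Interleaved 1 (example' m A h2 hA) (example' m B h2' hB) := by
  have hlt : ∀ i : Fin (m + 2), fold i < m + 2 := by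
    intro i
    unfold fold
    split_ifs <;> omega
  refine interleaved_of (T := example' m A h2 hA) (T' := example' m B h2' hB)
    (σ := fun i => ⟨fold i.1, hlt i⟩) (τ := fun i => ⟨fold i.1, hlt i⟩) ?_ ?_ ?_ ?_
  · intro i j
    exact (hgt_fold h2 hA i.1 j.1).trans_eq (by rfl)
  · intro i j
    exact (hgt_fold h2' hB i.1 j.1).trans_eq (by rfl)
  · intro i
    exact (hgt_fold_self i.1).trans_eq (by push_cast; rw [mul_one]; rfl)
  · intro i
    exact (hgt_fold_self i.1).trans_eq (by push_cast; rw [mul_one]; rfl)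

theorem exists_interleaved {T S : MergeTree} (h : edist T S < 1) :
    ∃ δ : ℝ≥0, δ < 1 ∧ Interleaved δ T S := by
  rw [edist_def, dI] at h
  obtain ⟨δ, h⟩ := iInf_lt_iff.1 h
  obtain ⟨h1, h2⟩ := iInf_lt_iff.1 h
  exact ⟨δ, by exact_mod_cast h2, h1⟩

/-- no tree with at most `m + 2` leaves is close to both examples -/
theorem not_close (m : ℕ) {A B : ℝ} (h2 : 2 ≤ A) (hA : A ≤ 200) (h2' : 2 ≤ B)
    (hB : B ≤ 200) (hAB : A + 2 ≤ B) {S : MergeTree} (hS : S.n ≤ m + 2)
    (h : edist (example' m A h2 hA) S < 1) (h' : edist (example' m B h2' hB) S < 1) : False := by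
  obtain ⟨δ, hδ, h⟩ := exists_interleaved h
  obtain ⟨δ', hδ', h'⟩ := exists_interleaved h'
  obtain ⟨k, hk, hk'⟩ := exists_leaves (example_gap m A h2 hA) hδ h
  obtain ⟨l, hl, hl'⟩ := exists_leaves (example_gap m B h2' hB) hδ' h'
  have hn : m + 2 = S.n := by
    have h3 := Fintype.card_le_of_injective k hk
    simp only [Fintype.card_fin] at h3
    exact le_antisymm h3 hS
  have hlb : Function.Bijective l := by
    rw [Fintype.bijective_iff_injective_and_card]
    refine ⟨hl, ?_⟩
    simp only [Fintype.card_fin]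
    exact hn
  obtain ⟨i0, hi0⟩ : ∃ i0 : Fin (m + 2), i0.1 = 0 := ⟨⟨0, by omega⟩, rfl⟩
  obtain ⟨i1, hi1⟩ : ∃ i1 : Fin (m + 2), i1.1 = 1 := ⟨⟨1, by omega⟩, rfl⟩
  have h01 : i0 ≠ i1 := fun h => by
    have := congrArg Fin.val h
    omega
  obtain ⟨i, hi⟩ := hlb.2 (k i0)
  obtain ⟨j, hj⟩ := hlb.2 (k i1)
  have hij : i ≠ j := by
    intro h
    apply h01
    apply hk
    rw [← hi, ← hj, h]
  have hij' : (i : ℕ) ≠ j := fun h => hij (Fin.ext h)
  have h3 := hk' i0 i1
  have h4 := hl' i j
  rw [hi, hj] at h4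
  have h5 : (example' m A h2 hA).M i0 i1 = A := by
    change hgt A i0.1 i1.1 = A
    rw [hi0, hi1, hgt_of_ne A (by norm_num)]
    simp [w]
  have h6 : B ≤ (example' m B h2' hB).M i j := by
    change B ≤ hgt B i j
    rw [hgt_of_ne B hij']
    exact le_w hB _
  have h7 : (δ : ℝ) < 1 := by exact_mod_cast hδ
  have h8 : (δ' : ℝ) < 1 := by exact_mod_cast hδ'
  rw [h5] at h3
  have h9 := abs_le.1 h3
  have h10 := abs_le.1 h4
  linarith [h9.2, h10.1]

theorem two_le_intrinsic (m : ℕ) {A B : ℝ} (h2 : 2 ≤ A) (hA : A ≤ 200) (h2' : 2 ≤ B)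
    (hB : B ≤ 200) (hAB : A + 2 ≤ B) :
    2 ≤ intrinsic (m + 2) (example' m A h2 hA) (example' m B h2' hB) := by
  refine le_iInf₂ fun γ h => ?_
  obtain ⟨hc, hn, h0, h1⟩ := h
  obtain ⟨t, ht, ht1, ht2⟩ : ∃ t ∈ Icc (0 : ℝ) 1, 1 ≤ edist (γ 0) (γ t) ∧
      1 ≤ edist (γ t) (γ 1) := by
    by_contra hno
    push Not at hno
    have hpc : IsPreconnected (γ '' Icc (0 : ℝ) 1) := isPreconnected_Icc.image γ hc
    obtain ⟨x, ⟨t, ht, rfl⟩, hx1, hx2⟩ := hpc (Metric.eball (γ 0) 1) (Metric.eball (γ 1) 1)
      Metric.isOpen_eball Metric.isOpen_eball (by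
        rintro _ ⟨t, ht, rfl⟩
        rcases lt_or_ge (edist (γ 0) (γ t)) 1 with h3 | h3
        · left
          rw [Metric.mem_eball, edist_comm]
          exact h3
        · right
          rw [Metric.mem_eball]
          exact hno t ht h3)
      ⟨γ 0, ⟨0, by simp, rfl⟩, Metric.mem_eball_self one_pos⟩
      ⟨γ 1, ⟨1, by simp, rfl⟩, Metric.mem_eball_self one_pos⟩
    rw [Metric.mem_eball, edist_comm] at hx1 hx2
    rw [h0] at hx1
    rw [h1] at hx2
    exact not_close m h2 hA h2' hB hAB (hn t ht) hx1 hx2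
  have h3 := eVariationOn.Icc_add_Icc γ (s := univ) ht.1 ht.2 (mem_univ t)
  simp only [univ_inter] at h3
  rw [← h3]
  calc (2 : ℝ≥0∞) = 1 + 1 := by norm_num
    _ ≤ edist (γ 0) (γ t) + edist (γ t) (γ 1) := add_le_add ht1 ht2
    _ ≤ _ := add_le_add (eVariationOn.edist_le _ (left_mem_Icc.2 ht.1) (right_mem_Icc.2 ht.1))
      (eVariationOn.edist_le _ (left_mem_Icc.2 ht.2) (right_mem_Icc.2 ht.2))

/-! ### Merge trees with one leaf -/

/-- the merge tree with one leaf, at height `b` -/
def line (b : ℝ) : MergeTree where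
  n := 1
  pos := one_pos
  M _ _ := b
  symm _ _ := rfl
  ultra _ _ _ := by simp
  gap i j h := absurd (Subsingleton.elim i j) h

theorem exists_line {T : MergeTree} (hT : T.n ≤ 1) : ∃ b, T = line b := by
  obtain ⟨n, pos, M, symm, ultra, gap⟩ := T
  have hn : n = 1 := le_antisymm hT pos
  subst hn
  refine ⟨M 0 0, ?_⟩
  have hM : M = fun _ _ => M 0 0 := by
    funext i j
    rw [Subsingleton.elim i 0, Subsingleton.elim j 0]
  unfold line
  congr 1

theorem le_height_line {b : ℝ} (x : (line b).Space) : b ≤ (line b).height x := by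
  obtain ⟨i, t, h, rfl⟩ := exists_pt x
  exact h

theorem edist_line (b b' : ℝ) : edist (line b) (line b') = edist b b' := by
  rw [edist_def, dI, edist_dist, Real.dist_eq]
  apply le_antisymm
  · refine (iInf₂_le (Real.nnabs (b - b')) ?_).trans ?_
    · have h1 : b - b' ≤ |b - b'| := le_abs_self _
      have h2 : b' - b ≤ |b - b'| := by rw [abs_sub_comm]; exact le_abs_self _
      have h3 : 0 ≤ |b - b'| := abs_nonneg _
      refine interleaved_of (T := line b) (T' := line b') (σ := fun i => i) (τ := fun i => i)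
        ?_ ?_ ?_ ?_
      · intro i j
        change b' ≤ b + |b - b'|
        linarith
      · intro i j
        change b ≤ b' + |b - b'|
        linarith
      · intro i
        change b ≤ b + 2 * |b - b'|
        linarith
      · intro i
        change b' ≤ b' + 2 * |b - b'|
        linarith
    · rw [← Real.coe_nnabs, ENNReal.ofReal_coe_nnreal]
  · refine le_iInf₂ fun ε h => ?_
    obtain ⟨α, β, -, -, h1, h2, -, -⟩ := h
    have h3 : (line b').height (α ((line b).pt (0 : Fin 1) b le_rfl)) = b + ε :=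
      h1 ((line b).pt (0 : Fin 1) b le_rfl)
    have h4 : (line b).height (β ((line b').pt (0 : Fin 1) b' le_rfl)) = b' + ε :=
      h2 ((line b').pt (0 : Fin 1) b' le_rfl)
    have h5 := le_height_line (α ((line b).pt (0 : Fin 1) b le_rfl))
    have h6 := le_height_line (β ((line b').pt (0 : Fin 1) b' le_rfl))
    rw [h3] at h5
    rw [h4] at h6
    rw [← ENNReal.ofReal_coe_nnreal]
    apply ENNReal.ofReal_le_ofReal
    rw [abs_le]
    constructor <;> linarith

theorem intrinsic_line (b b' : ℝ) : intrinsic 1 (line b) (line b') ≤ edist (line b) (line b') := by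
  have hiso : Isometry line := fun b b' => edist_line b b'
  have hlip : LipschitzWith (Real.nnabs (b' - b)) fun s : ℝ => line (b + s * (b' - b)) := by
    have h1 : LipschitzWith (Real.nnabs (b' - b)) fun s : ℝ => b + s * (b' - b) := by
      refine LipschitzWith.of_dist_le_mul fun s t => ?_
      rw [Real.dist_eq, Real.dist_eq]
      have : b + s * (b' - b) - (b + t * (b' - b)) = (b' - b) * (s - t) := by ring
      rw [this, abs_mul]
      rfl
    have h2 := hiso.lipschitz.comp h1
    rw [one_mul] at h2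
    exact h2
  have e0 : line (b + 0 * (b' - b)) = line b := by
    congr 1
    ring
  have e1 : line (b + 1 * (b' - b)) = line b' := by
    congr 1
    ring
  refine (iInf₂_le (fun s : ℝ => line (b + s * (b' - b))) ⟨hlip.continuous.continuousOn,
    fun t _ => le_rfl, e0, e1⟩).trans ?_
  · have h1 := (hlip.lipschitzOnWith (s := univ)).comp_eVariationOn_le
      (g := fun s : ℝ => s) (s := Icc (0 : ℝ) 1) (fun _ _ => mem_univ _)
    have h2 : eVariationOn (fun s : ℝ => s) (Icc (0 : ℝ) 1) ≤ 1 := by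
      have h3 := (monotone_id.monotoneOn (Icc (0 : ℝ) 1)).eVariationOn_eq
        (left_mem_Icc.2 zero_le_one) (right_mem_Icc.2 zero_le_one)
      rw [inter_self] at h3
      refine h3.le.trans ?_
      simp
    have h4 : edist (line b) (line b') = (Real.nnabs (b' - b) : ℝ≥0) := by
      rw [edist_line, edist_comm, edist_dist, Real.dist_eq, ← Real.coe_nnabs,
        ENNReal.ofReal_coe_nnreal]
    rw [h4]
    exact h1.trans (by
      calc _ ≤ ((Real.nnabs (b' - b) : ℝ≥0) : ℝ≥0∞) * 1 := by gcongr
        _ = _ := mul_one _)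

/-- **The intrinsic interleaving metric on merge trees with few leaves.** The metric `intrinsic n`
coincides with the interleaving distance on the merge trees with at most `n` leaves for `n = 1`,
but for no `n ≥ 2`: there are merge trees with `n` leaves whose interleaving distance is at most
`1`, and whose intrinsic distance is at least `2`. -/
theorem result :
    (∀ T T' : MergeTree, T.n ≤ 1 → T'.n ≤ 1 → intrinsic 1 T T' = edist T T') ∧
    ∀ n : ℕ, 2 ≤ n → ∃ T T' : MergeTree, T.n = n ∧ T'.n = n ∧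
      edist T T' ≤ 1 ∧ 2 ≤ intrinsic n T T' := by
  constructor
  · intro T T' hT hT'
    obtain ⟨b, rfl⟩ := exists_line hT
    obtain ⟨b', rfl⟩ := exists_line hT'
    exact le_antisymm (intrinsic_line b b') (le_intrinsic 1 _ _)
  · intro n hn
    obtain ⟨m, rfl⟩ := Nat.exists_eq_add_of_le hn
    rw [add_comm 2 m]
    refine ⟨example' m 10 (by norm_num) (by norm_num), example' m 20 (by norm_num) (by norm_num),
      rfl, rfl, ?_, ?_⟩
    · refine (iInf₂_le 1 (example_interleaved m _ _ _ _)).trans ?_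
      simp
    · exact two_le_intrinsic m _ _ _ _ (by norm_num)

end Pool.Agent.Results.MP_4761b7_gt.FewLeaves
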